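import Pool.Agent.U974.QB.Frob
import Pool.Agent.U80.MQ.Eul
import Pool.Agent.U80.MQ.Fac

/-!
# The L-function of a quadric bundle over a number field
-/

set_option autoImplicit false

namespace Pool.Agent.U974.QB

open Finset Matrix MvPolynomial NumberField IsDedekindDomain
open Pool.Agent.U41.QB (FF TT gl gl_diff TT_bound TT_sq)

variable {K : Type} [Field K] [NumberField K]

/-- the trace of `y² = x³ - 35 D² x - 98 D³` at `v` -/
noncomputable def tv (D : 𝓞 K) (v : HeightOneSpectrum (𝓞 K)) : ℤ :=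
  ((Ideal.absNorm v.asIdeal : ℕ) : ℤ) -
    ((Nat.card {x : (𝓞 K ⧸ v.asIdeal) × (𝓞 K ⧸ v.asIdeal) //
      x.2 ^ 2 = x.1 ^ 3 + (-35 * (Ideal.Quotient.mk v.asIdeal D) ^ 2) * x.1 +
        (-98 * (Ideal.Quotient.mk v.asIdeal D) ^ 3)} : ℕ) : ℤ)

/-- everything at one place -/
theorem place (v : HeightOneSpectrum (𝓞 K)) (h2 : (2 : 𝓞 K) ∉ v.asIdeal) :
    1 < Ideal.absNorm v.asIdeal ∧
    (∀ D : 𝓞 K, ((tv D v : ℤ) : ℝ) ^ 2 ≤ 4 * ((Ideal.absNorm v.asIdeal : ℕ) : ℝ)) ∧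
    (∀ D t : 𝓞 K, t ∉ v.asIdeal → tv (D * t ^ 2) v = tv D v) ∧
    ((3 : 𝓞 K) ∉ v.asIdeal → (7 : 𝓞 K) ∉ v.asIdeal → ∀ (k : ℕ)
      (S : Matrix (Fin (2 * k + 2)) (Fin (2 * k + 2)) (MvPolynomial (Fin 2) (𝓞 K))) (a b c : 𝓞 K),
      S.IsSymm → S.det = (-1) ^ (k + 1) * C (c ^ 2) * FF (C a) (C b) (X 0) (X 1) →
      a ∉ v.asIdeal → b ∉ v.asIdeal → c ∉ v.asIdeal →
      ∀ (F : Type) [Field F] [Finite F] (φ : 𝓞 K →+* F), RingHom.ker φ = v.asIdeal → ∀ r : ℕ,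
        Nat.card F = (Ideal.absNorm v.asIdeal) ^ r →
        (({w : (Fin 2 → F) × (Fin (2 * k + 2) → F) | w.1 ≠ 0 ∧ w.2 ≠ 0 ∧
          ∑ i, ∑ l, eval₂ φ w.1 (S i l) * w.2 i * w.2 l = 0}.ncard : ℕ) : ℂ) =
          ((Nat.card F : ℂ) - 1) ^ 2 * (((Nat.card F : ℂ) + 1) *
            ∑ i ∈ range (2 * k + 1), (Nat.card F : ℂ) ^ i -
            ((eig k (tv a v) (tv b v) (Ideal.absNorm v.asIdeal)).map (fun x => x ^ r)).sum)) := by
  classical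
  have hmax : v.asIdeal.IsMaximal := v.isPrime.isMaximal v.ne_bot
  letI : Field (𝓞 K ⧸ v.asIdeal) := Ideal.Quotient.field v.asIdeal
  have : Finite (𝓞 K ⧸ v.asIdeal) := Ideal.finiteQuotientOfFreeOfNeBot v.asIdeal v.ne_bot
  letI : Fintype (𝓞 K ⧸ v.asIdeal) := Fintype.ofFinite _
  have hcard : Ideal.absNorm v.asIdeal = Fintype.card (𝓞 K ⧸ v.asIdeal) := by
    rw [Ideal.absNorm_apply, Submodule.cardQuot_apply, Nat.card_eq_fintype_card]
  let π : 𝓞 K →+* (𝓞 K ⧸ v.asIdeal) := Ideal.Quotient.mk v.asIdeal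
  have hne : ∀ x : 𝓞 K, x ∉ v.asIdeal → π x ≠ 0 := fun x hx h => hx (Ideal.Quotient.eq_zero_iff_mem.1 h)
  have h2' : (2 : 𝓞 K ⧸ v.asIdeal) ≠ 0 := by
    have := hne 2 h2
    rwa [map_ofNat] at this
  have hk : ringChar (𝓞 K ⧸ v.asIdeal) ≠ 2 := fun h => h2' (by
    have h1 : ((ringChar (𝓞 K ⧸ v.asIdeal) : ℕ) : 𝓞 K ⧸ v.asIdeal) = 0 := ringChar.Nat.cast_ringChar
    rw [h] at h1
    exact_mod_cast h1)
  have htv : ∀ D : 𝓞 K, tv D v = -TT (π D) := by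
    intro D
    rw [← tr_field hk (π D), ← hcard]
    rfl
  refine ⟨?_, fun D => ?_, fun D t ht => ?_, ?_⟩
  · rw [hcard]
    exact Fintype.one_lt_card
  · rw [htv, hcard]
    have := TT_bound hk (π D)
    push_cast
    rw [neg_sq]
    exact this
  · rw [htv, htv, map_mul, map_pow, TT_sq _ (hne t ht)]
  · intro h3 h7 k S a b c hS hdet ha hb hc F _ _ φ hφ r hr
    have h3' : (3 : 𝓞 K ⧸ v.asIdeal) ≠ 0 := by
      have := hne 3 h3
      rwa [map_ofNat] at this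
    have h7' : (7 : 𝓞 K ⧸ v.asIdeal) ≠ 0 := by
      have := hne 7 h7
      rwa [map_ofNat] at this
    let j : (𝓞 K ⧸ v.asIdeal) →+* F := Ideal.Quotient.lift v.asIdeal φ (fun x hx => by
      rw [← hφ] at hx
      exact hx)
    have hj : j.comp π = φ := by
      ext x
      rfl
    have key := frob π j hk h3' h7' k hS hdet (hne a ha) (hne b hb) (hne c hc) (r := r)
      (by rw [hr, hcard])
    rw [hj] at key
    rw [key, htv, htv, ← hcard]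

theorem fin_bad {N : 𝓞 K} (hN : N ≠ 0) : {v : HeightOneSpectrum (𝓞 K) | N ∈ v.asIdeal}.Finite := by
  have h1 : (Ideal.span {N} : Ideal (𝓞 K)) ≠ 0 := by
    rw [Ne, Ideal.zero_eq_bot, Ideal.span_singleton_eq_bot]
    exact hN
  refine (Ideal.finite_factors h1).subset fun v hv => ?_
  rw [Set.mem_ofPred_eq, Ideal.dvd_span_singleton]
  exact hv

theorem mem_disc (D : ℕ) (v : HeightOneSpectrum (𝓞 K)) :
    ((2 * (4 * Pool.Agent.U80.MQ.A D ^ 3 + 27 * Pool.Agent.U80.MQ.B D ^ 2) : ℤ) : 𝓞 K) ∈ v.asIdeal ↔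
      (2 : 𝓞 K) ∈ v.asIdeal ∨ (7 : 𝓞 K) ∈ v.asIdeal ∨ (D : 𝓞 K) ∈ v.asIdeal := by
  have hp := v.isPrime
  rw [Pool.Agent.U80.MQ.disc_eq]
  have e : ((((2 ^ 9 * 7 ^ 3 * D ^ 6 : ℕ) : ℕ) : ℤ) : 𝓞 K) = (2 : 𝓞 K) ^ 9 * 7 ^ 3 * (D : 𝓞 K) ^ 6 := by
    rw [Int.cast_natCast, Nat.cast_mul, Nat.cast_mul, Nat.cast_pow, Nat.cast_pow, Nat.cast_pow]
    norm_num
  rw [e, hp.mul_mem_iff_mem_or_mem, hp.mul_mem_iff_mem_or_mem, hp.pow_mem_iff_mem _ (by norm_num),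
    hp.pow_mem_iff_mem _ (by norm_num), hp.pow_mem_iff_mem _ (by norm_num), or_assoc]

theorem factor_eq (D : ℕ) (s : ℂ) (v : HeightOneSpectrum (𝓞 K)) (h2 : (2 : 𝓞 K) ∉ v.asIdeal)
    (h7 : (7 : 𝓞 K) ∉ v.asIdeal) (hD : (D : 𝓞 K) ∉ v.asIdeal) :
    Pool.Agent.U80.MQ.factor (K := K) (Pool.Agent.U80.MQ.A D) (Pool.Agent.U80.MQ.B D) s v =
      (gl (tv (D : 𝓞 K) v) s (Ideal.absNorm v.asIdeal))⁻¹ := by
  classical
  unfold Pool.Agent.U80.MQ.factor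
  rw [if_neg (by rw [mem_disc]; tauto)]
  have e : W165.CE.av (Pool.Agent.U80.MQ.A D) (Pool.Agent.U80.MQ.B D) v = tv (D : 𝓞 K) v := by
    unfold W165.CE.av tv
    have e1 : ((Pool.Agent.U80.MQ.A D : ℤ) : 𝓞 K ⧸ v.asIdeal) =
        -35 * (Ideal.Quotient.mk v.asIdeal (D : 𝓞 K)) ^ 2 := by
      unfold Pool.Agent.U80.MQ.A
      push_cast
      rw [map_natCast]
    have e2 : ((Pool.Agent.U80.MQ.B D : ℤ) : 𝓞 K ⧸ v.asIdeal) =
        -98 * (Ideal.Quotient.mk v.asIdeal (D : 𝓞 K)) ^ 3 := by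
      unfold Pool.Agent.U80.MQ.B
      push_cast
      rw [map_natCast]
    rw [e1, e2]
  rw [e]
  rfl

/-- the incomplete `L`-function of `y² = x³ - 35 a² x - 98 a³` over `K` is entire and not zero at `1` -/
def NonVan (a N : 𝓞 K) : Prop :=
  ∃ f : ℂ → ℂ, Differentiable ℂ f ∧ (∀ s : ℂ, (3 : ℝ) / 2 < s.re →
    HasProd (fun v : {v : HeightOneSpectrum (𝓞 K) // N ∉ v.asIdeal} =>
      (gl (tv a v.1) s (Ideal.absNorm v.1.asIdeal))⁻¹) (f s)) ∧ f 1 ≠ 0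

/-- more bad places, a twist by a square -/
theorem nonVan_of {D : ℕ} {t N : 𝓞 K} (hN : N ≠ 0)
    (hbad : ∀ v : HeightOneSpectrum (𝓞 K), (2 : 𝓞 K) ∈ v.asIdeal ∨ (7 : 𝓞 K) ∈ v.asIdeal ∨
      (D : 𝓞 K) ∈ v.asIdeal ∨ t ∈ v.asIdeal → N ∈ v.asIdeal)
    (h : ∃ G : ℂ → ℂ, Differentiable ℂ G ∧ (∀ s : ℂ, 3 / 2 < s.re →
      HasProd (Pool.Agent.U80.MQ.factor (K := K) (Pool.Agent.U80.MQ.A D)
        (Pool.Agent.U80.MQ.B D) s) (G s)) ∧ G 1 ≠ 0) : NonVan ((D : 𝓞 K) * t ^ 2) N := by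
  classical
  obtain ⟨G, h1, h2, h3⟩ := h
  obtain ⟨T, hT⟩ : ∃ T : Finset (HeightOneSpectrum (𝓞 K)), ∀ v, v ∈ T ↔ N ∈ v.asIdeal := by
    refine ⟨(fin_bad hN).toFinset, fun v => ?_⟩
    rw [Set.Finite.mem_toFinset, Set.mem_ofPred_eq]
  obtain ⟨cf, hcf⟩ : ∃ cf : HeightOneSpectrum (𝓞 K) → ℂ → ℂ, ∀ v s, cf v s =
      if (2 : 𝓞 K) ∈ v.asIdeal ∨ (7 : 𝓞 K) ∈ v.asIdeal ∨ (D : 𝓞 K) ∈ v.asIdeal then 1 else
        gl (tv (D : 𝓞 K) v) s (Ideal.absNorm v.asIdeal) := ⟨_, fun _ _ => rfl⟩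
  have hcd : ∀ v, Differentiable ℂ (cf v) := by
    intro v
    have : cf v = fun s => cf v s := rfl
    rw [this]
    simp_rw [hcf v]
    split_ifs with h
    · exact differentiable_const _
    · exact gl_diff _ (by
        have := (place v (fun h2 => h (Or.inl h2))).1
        omega)
  have hcn : ∀ v (s : ℂ), (1 : ℝ) / 2 < s.re → cf v s ≠ 0 := by
    intro v s hs
    rw [hcf]
    split_ifs with h
    · exact one_ne_zero
    · have h4 := place v (fun h2 => h (Or.inl h2))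
      exact gl_ne h4.1 (h4.2.1 _) hs
  have hcm : ∀ v (s : ℂ), (1 : ℝ) / 2 < s.re →
      Pool.Agent.U80.MQ.factor (K := K) (Pool.Agent.U80.MQ.A D) (Pool.Agent.U80.MQ.B D) s v *
        cf v s = 1 := by
    intro v s hs
    by_cases h : (2 : 𝓞 K) ∈ v.asIdeal ∨ (7 : 𝓞 K) ∈ v.asIdeal ∨ (D : 𝓞 K) ∈ v.asIdeal
    · rw [hcf, if_pos h, mul_one]
      unfold Pool.Agent.U80.MQ.factor
      rw [if_pos ((mem_disc D v).2 h)]
    · have h5 := h
      push Not at h5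
      have h6 := hcn v s hs
      rw [factor_eq D s v h5.1 h5.2.1 h5.2.2]
      rw [hcf, if_neg h] at h6 ⊢
      exact inv_mul_cancel₀ h6
  refine ⟨fun s => G s * ∏ v ∈ T, cf v s, ?_, fun s hs => ?_, ?_⟩
  · refine h1.mul ?_
    have : ∀ U : Finset (HeightOneSpectrum (𝓞 K)), Differentiable ℂ (fun s => ∏ v ∈ U, cf v s) := by
      intro U
      induction U using Finset.induction_on with
      | empty => simp
      | insert l U hl ih =>
        simp_rw [Finset.prod_insert hl]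
        exact (hcd l).mul ih
    exact this T
  · have hs1 : (1 : ℝ) / 2 < s.re := by linarith
    have k2 : HasProd (fun v => if v ∈ T then cf v s else 1) (∏ v ∈ T, cf v s) := by
      have h3 : ∏ v ∈ T, cf v s = ∏ v ∈ T, if v ∈ T then cf v s else 1 :=
        Finset.prod_congr rfl fun l hl => by rw [if_pos hl]
      rw [h3]
      exact hasProd_prod_of_ne_finset_one fun l hl => by rw [if_neg hl]
    have k4 := (h2 s hs).mul k2
    refine (hasProd_subtype_iff_mulIndicator (f := fun v : HeightOneSpectrum (𝓞 K) =>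
      (gl (tv ((D : 𝓞 K) * t ^ 2) v) s (Ideal.absNorm v.asIdeal))⁻¹)
      (s := {v : HeightOneSpectrum (𝓞 K) | N ∉ v.asIdeal})).2 ?_
    convert k4 using 1
    funext v
    by_cases hv : N ∈ v.asIdeal
    · rw [if_pos ((hT v).2 hv), hcm v s hs1, Set.mulIndicator_of_notMem]
      exact fun h => h hv
    · rw [if_neg (fun h => hv ((hT v).1 h)), mul_one, Set.mulIndicator_of_mem
        (show v ∈ {v : HeightOneSpectrum (𝓞 K) | N ∉ v.asIdeal} from hv)]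
      have g2 : (2 : 𝓞 K) ∉ v.asIdeal := fun h => hv (hbad v (Or.inl h))
      have g7 : (7 : 𝓞 K) ∉ v.asIdeal := fun h => hv (hbad v (Or.inr (Or.inl h)))
      have gD : (D : 𝓞 K) ∉ v.asIdeal := fun h => hv (hbad v (Or.inr (Or.inr (Or.inl h))))
      have gt : t ∉ v.asIdeal := fun h => hv (hbad v (Or.inr (Or.inr (Or.inr h))))
      rw [factor_eq D s v g2 g7 gD, (place v g2).2.2.1 _ t gt]
  · show G 1 * ∏ v ∈ T, cf v 1 ≠ 0
    refine mul_ne_zero h3 (Finset.prod_ne_zero_iff.2 fun v _ => hcn v 1 ?_)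
    rw [Complex.one_re]
    norm_num

/-- **the `L`-function of the bundle** -/
theorem L_two (k : ℕ) {a b N : 𝓞 K} (h2N : ∀ v : HeightOneSpectrum (𝓞 K), (2 : 𝓞 K) ∈ v.asIdeal → N ∈ v.asIdeal)
    (ha : NonVan a N) (hb : NonVan b N) :
    ∃ L : ℂ → ℂ, Differentiable ℂ L ∧ (∀ s : ℂ, (k : ℝ) + 3 / 2 < s.re →
      HasProd (fun v : {v : HeightOneSpectrum (𝓞 K) // N ∉ v.asIdeal} =>
        ((eig k (tv a v.1) (tv b v.1) (Ideal.absNorm v.1.asIdeal)).map fun z =>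
          (1 - z * ((Ideal.absNorm v.1.asIdeal : ℕ) : ℂ) ^ (-s))⁻¹).prod) (L s)) ∧
      L (k + 1) ≠ 0 := by
  obtain ⟨f, f1, f2, f3⟩ := ha
  obtain ⟨g, g1, g2, g3⟩ := hb
  refine ⟨fun s => f (s - k) * g (s - k), ?_, fun s hs => ?_, ?_⟩
  · exact (f1.comp (differentiable_id.sub_const _)).mul (g1.comp (differentiable_id.sub_const _))
  · have hs' : (3 : ℝ) / 2 < (s - k).re := by
      simp only [Complex.sub_re, Complex.natCast_re]
      linarith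
    have h1 := (f2 _ hs').mul (g2 _ hs')
    convert h1 using 1
    funext v
    obtain ⟨v, hv⟩ := v
    have hp := place v (fun h => hv (h2N v h))
    exact eig_prod k hp.1 (hp.2.1 a) (hp.2.1 b) s
  · show f ((k : ℂ) + 1 - k) * g ((k : ℂ) + 1 - k) ≠ 0
    have : (k : ℂ) + 1 - k = 1 := by ring
    rw [this]
    exact mul_ne_zero f3 g3

end Pool.Agent.U974.QB
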