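import Pool.Agent.U41.QB.Lf
import Pool.Agent.U974.QB.Cnt

/-!
# The point counts over all extensions of a finite field, coefficients in any ring
-/

set_option autoImplicit false

namespace Pool.Agent.U974.QB

open Finset Matrix MvPolynomial
open Pool.Agent.U41.QB (FF GG two_ne qf TT ext_sum al be al_add_be al_mul_be TT_bound gl norm_al norm_be)
open Pool.Agent.H82R3.EK (luc_eq)

/-- the sum over an extension -/
theorem TT_ext {k F : Type} [Field k] [Fintype k] [DecidableEq k] [Field F] [Fintype F] [DecidableEq F]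
    (hk : ringChar k ≠ 2) (h7 : (7 : k) ≠ 0) (j : k →+* F) {a : k} (ha : a ≠ 0) {r : ℕ}
    (hr : Fintype.card F = Fintype.card k ^ r) :
    ((TT (j a) : ℤ) : ℂ) = -((al (-TT a) (Fintype.card k)) ^ r + (be (-TT a) (Fintype.card k)) ^ r) := by
  letI : Algebra k F := j.toAlgebra
  have hfr : Module.finrank k F = r := by
    have h1 := Module.card_eq_pow_finrank (K := k) (V := F)
    rw [hr] at h1
    exact (Nat.pow_right_injective (Fintype.one_lt_card (α := k)) h1).symm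
  have h2 : (2 : k) ≠ 0 := two_ne hk
  have hv : (112 * a ^ 2) ≠ 0 := by
    have : (112 : k) = 2 ^ 4 * 7 := by norm_num
    rw [this]
    exact mul_ne_zero (mul_ne_zero (pow_ne_zero 4 h2) h7) (pow_ne_zero 2 ha)
  have hD : (21 * a) ^ 2 - 4 * (112 * a ^ 2) ≠ 0 := by
    have : (21 * a) ^ 2 - 4 * (112 * a ^ 2) = -(7 * a ^ 2) := by ring
    rw [this]
    exact neg_ne_zero.2 (mul_ne_zero h7 (pow_ne_zero 2 ha))
  have key := ext_sum hk (21 * a) (112 * a ^ 2) hv hD (E := F)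
  have e1 : ∑ x : F, quadraticChar F (x * (x ^ 2 + algebraMap k F (21 * a) * x +
      algebraMap k F (112 * a ^ 2))) = TT (j a) := by
    unfold TT
    refine Finset.sum_congr rfl fun x _ => ?_
    simp only [map_mul, map_pow, map_ofNat]
    rfl
  have e2 : ∑ x : k, quadraticChar k (x * (x ^ 2 + 21 * a * x + 112 * a ^ 2)) = TT a := rfl
  rw [e1, e2, hfr] at key
  have hb := TT_bound hk a
  have hb' : (((-TT a : ℤ)) : ℝ) ^ 2 ≤ 4 * ((Fintype.card k : ℕ) : ℝ) := by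
    push_cast
    rw [neg_sq]
    exact hb
  rw [key]
  push_cast
  rw [luc_eq (al_add_be _ _) (al_mul_be hb') r]

/-- the eigenvalues on `H^{2k+1}` of the quadric bundle -/
noncomputable def eig (k : ℕ) (t t' : ℤ) (q : ℕ) : Multiset ℂ :=
  {(q : ℂ) ^ k * al t q, (q : ℂ) ^ k * be t q, (q : ℂ) ^ k * al t' q, (q : ℂ) ^ k * be t' q}

variable {R : Type} [CommRing R]

/-- **the point counts over all extensions** -/
theorem frob {k₀ F : Type} [Field k₀] [Fintype k₀] [DecidableEq k₀] [Field F] [Finite F]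
    (φ₀ : R →+* k₀) (j : k₀ →+* F) (hk : ringChar k₀ ≠ 2) (h3 : (3 : k₀) ≠ 0) (h7 : (7 : k₀) ≠ 0) (k : ℕ)
    {S : Matrix (Fin (2 * k + 2)) (Fin (2 * k + 2)) (MvPolynomial (Fin 2) R)} (hS : S.IsSymm)
    {a b c : R} (hdet : S.det = (-1) ^ (k + 1) * C (c ^ 2) * FF (C a) (C b) (X 0) (X 1))
    (ha : φ₀ a ≠ 0) (hb : φ₀ b ≠ 0) (hc : φ₀ c ≠ 0) {r : ℕ} (hr : Nat.card F = Fintype.card k₀ ^ r) :
    (({w : (Fin 2 → F) × (Fin (2 * k + 2) → F) | w.1 ≠ 0 ∧ w.2 ≠ 0 ∧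
      ∑ i, ∑ l, eval₂ (j.comp φ₀) w.1 (S i l) * w.2 i * w.2 l = 0}.ncard : ℕ) : ℂ) =
      ((Nat.card F : ℂ) - 1) ^ 2 * (((Nat.card F : ℂ) + 1) *
        ∑ i ∈ range (2 * k + 1), (Nat.card F : ℂ) ^ i -
        ((eig k (-TT (φ₀ a)) (-TT (φ₀ b)) (Fintype.card k₀)).map (fun x => x ^ r)).sum) := by
  classical
  letI : Fintype F := Fintype.ofFinite F
  rw [Nat.card_eq_fintype_card] at hr ⊢
  have hj : ∀ x : k₀, x ≠ 0 → j x ≠ 0 := fun x hx h => hx (j.injective (h.trans (map_zero j).symm))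
  have h2F : (2 : F) ≠ 0 := by
    have := hj 2 (two_ne hk)
    rwa [map_ofNat] at this
  have hF : ringChar F ≠ 2 := fun h => h2F (by
    have h1 : ((ringChar F : ℕ) : F) = 0 := ringChar.Nat.cast_ringChar
    rw [h] at h1
    exact_mod_cast h1)
  have h3F : (3 : F) ≠ 0 := by
    have := hj 3 h3
    rwa [map_ofNat] at this
  have h7F : (7 : F) ≠ 0 := by
    have := hj 7 h7
    rwa [map_ofNat] at this
  have key := count (j.comp φ₀) hF h3F h7F k hS hdet (hj _ ha) (hj _ hb) (hj _ hc)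
  have e1 : {w : (Fin 2 → F) × (Fin (2 * k + 2) → F) | w.1 ≠ 0 ∧ w.2 ≠ 0 ∧
      ∑ i, ∑ l, eval₂ (j.comp φ₀) w.1 (S i l) * w.2 i * w.2 l = 0}.ncard =
      (univ.filter fun w : (Fin 2 → F) × (Fin (2 * k + 2) → F) =>
      w.1 ≠ 0 ∧ w.2 ≠ 0 ∧ qf (ev S (j.comp φ₀) w.1) w.2 = 0).card := by
    rw [Set.ncard_eq_toFinset_card']
    congr 1
    ext w
    simp only [Set.mem_toFinset, Set.mem_ofPred_eq, Finset.mem_filter, Finset.mem_univ, true_and]
    rfl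
  rw [e1]
  have key' := congrArg (fun z : ℤ => (z : ℂ)) key
  push_cast at key'
  rw [key', RingHom.comp_apply, RingHom.comp_apply, TT_ext hk h7 j ha hr, TT_ext hk h7 j hb hr]
  have e2 : ((eig k (-TT (φ₀ a)) (-TT (φ₀ b)) (Fintype.card k₀)).map (fun x => x ^ r)).sum =
      (Fintype.card F : ℂ) ^ k * ((al (-TT (φ₀ a)) (Fintype.card k₀)) ^ r +
        (be (-TT (φ₀ a)) (Fintype.card k₀)) ^ r +
        ((al (-TT (φ₀ b)) (Fintype.card k₀)) ^ r + (be (-TT (φ₀ b)) (Fintype.card k₀)) ^ r)) := by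
    unfold eig
    simp only [Multiset.insert_eq_cons, Multiset.map_cons, Multiset.map_singleton,
      Multiset.sum_cons, Multiset.sum_singleton, mul_pow]
    have e3 : ((Fintype.card k₀ : ℂ) ^ k) ^ r = (Fintype.card F : ℂ) ^ k := by
      rw [hr]; push_cast; ring
    rw [e3]
    ring
  rw [e2]
  ring

theorem gl_eq {t : ℤ} {q : ℕ} (hq : q ≠ 0) (h : (t : ℝ) ^ 2 ≤ 4 * q) (s : ℂ) :
    gl t s q = (1 - al t q * (q : ℂ) ^ (-s)) * (1 - be t q * (q : ℂ) ^ (-s)) :=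
  Pool.Agent.U41.QB.gl_eq hq h s

theorem gl_ne {t : ℤ} {q : ℕ} (hq : 1 < q) (h : (t : ℝ) ^ 2 ≤ 4 * q) {s : ℂ}
    (hs : (1 : ℝ) / 2 < s.re) : gl t s q ≠ 0 := by
  have hp0 : 0 < (q : ℝ) := by exact_mod_cast (by omega : 0 < q)
  have hp1 : 1 < (q : ℝ) := by exact_mod_cast hq
  have key : ∀ z : ℂ, ‖z‖ ^ 2 = q → 1 - z * (q : ℂ) ^ (-s) ≠ 0 := by
    intro z hz h0
    have h1 : z * (q : ℂ) ^ (-s) = 1 := (sub_eq_zero.1 h0).symm
    have h2 : ‖z * (q : ℂ) ^ (-s)‖ ^ 2 = 1 := by rw [h1]; simp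
    have h3 : ‖(q : ℂ) ^ (-s)‖ = (q : ℝ) ^ (-s.re) := by
      have := Complex.norm_cpow_eq_rpow_re_of_pos hp0 (-s)
      simpa using this
    rw [norm_mul, mul_pow, hz, h3, ← Real.rpow_natCast, ← Real.rpow_mul hp0.le,
      ← Real.rpow_one_add' hp0.le (by push_cast; linarith)] at h2
    have h4 : (q : ℝ) ^ (1 + -s.re * ((2 : ℕ) : ℝ)) < 1 :=
      Real.rpow_lt_one_of_one_lt_of_neg hp1 (by push_cast; linarith)
    linarith
  rw [gl_eq (by omega) h]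
  exact mul_ne_zero (key _ (norm_al h)) (key _ (norm_be h))

theorem eig_prod (k : ℕ) {t t' : ℤ} {q : ℕ} (hq : 1 < q) (h : (t : ℝ) ^ 2 ≤ 4 * q)
    (h' : (t' : ℝ) ^ 2 ≤ 4 * q) (s : ℂ) :
    ((eig k t t' q).map fun z => (1 - z * (q : ℂ) ^ (-s))⁻¹).prod =
      (gl t (s - k) q)⁻¹ * (gl t' (s - k) q)⁻¹ := by
  have hp' : (q : ℂ) ≠ 0 := by exact_mod_cast (by omega : q ≠ 0)
  have h1 : (q : ℂ) ^ (-(s - k)) = (q : ℂ) ^ k * (q : ℂ) ^ (-s) := by
    rw [show -(s - (k : ℂ)) = (k : ℂ) + (-s) by ring, Complex.cpow_add _ _ hp', Complex.cpow_natCast]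
  rw [gl_eq (by omega) h, gl_eq (by omega) h', h1]
  unfold eig
  simp only [Multiset.insert_eq_cons, Multiset.map_cons, Multiset.map_singleton,
    Multiset.prod_cons, Multiset.prod_singleton]
  rw [← mul_inv, ← mul_inv, ← mul_inv, ← mul_inv]
  congr 1
  ring

theorem norm_eig (k : ℕ) {t t' : ℤ} {q : ℕ} (h : (t : ℝ) ^ 2 ≤ 4 * q)
    (h' : (t' : ℝ) ^ 2 ≤ 4 * q) : ∀ z ∈ eig k t t' q, ‖z‖ ^ 2 = (q : ℝ) ^ (2 * k + 1) :=
  Pool.Agent.U41.QB.norm_eig k h h'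

theorem card_eig (k : ℕ) (t t' : ℤ) (q : ℕ) : (eig k t t' q).card = 4 := by
  unfold eig
  simp

/-- the trace over a finite field -/
theorem tr_field {k : Type} [Field k] [Fintype k] [DecidableEq k] (hk : ringChar k ≠ 2) (D : k) :
    (Fintype.card k : ℤ) - (Nat.card {z : k × k // z.2 ^ 2 = z.1 ^ 3 + (-35 * D ^ 2) * z.1 +
      (-98 * D ^ 3)} : ℤ) = -TT D := by
  have h1 := Pool.Agent.H82R3.EK.card_points (k := k) hk
    (fun x => x ^ 3 + (-35 * D ^ 2) * x + (-98 * D ^ 3))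
  rw [h1]
  have h2 : ∑ x : k, quadraticChar k (x ^ 3 + (-35 * D ^ 2) * x + (-98 * D ^ 3)) = TT D := by
    unfold TT
    symm
    refine Fintype.sum_equiv (Equiv.addRight (7 * D)) _ _ fun z => ?_
    show _ = quadraticChar k ((z + 7 * D) ^ 3 + (-35 * D ^ 2) * (z + 7 * D) + (-98 * D ^ 3))
    congr 1
    ring
  rw [h2]
  ring

end Pool.Agent.U974.QB
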